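import Mathlib
import Pool.Agent.H932R3.Finals
import Pool.Agent.N388.EFW.Near
import Pool.Agent.N388.EF.TEST2

set_option autoImplicit false

/-!
# Segre's conjecture at eleven points of multiplicities `m` and `m + 1`

Let `m ≥ 20` and let `w i ∈ {m, m + 1}`, not all `m + 1`, be multiplicities at 11 general points of the
complex projective plane, `∑ w i = 11 m + s`. The linear system of curves of degree `d` with these
multiplicities is not special, for every degree `d` except possibly those divisible by three for which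
`e = (3 + √11) / 2 * (d - √11 m) - s` satisfies `√11 (2 d + 3) < 11 + 2 (11 m + s)`, `0 ≤ e`, and
`(3 √11 - 9) / 2 ≤ e` or `10 ≤ (10 + 3 √11) e + s`.
-/

namespace Pool.Agent.Results.MP_cfebfb_ag.ElevenPointsNearUniform

open MvPolynomial

/-- The number `(3 + √11) / 2 * (d - √11 m) - s`. -/
noncomputable def defect (m s d : ℕ) : ℝ := (3 + √11) / 2 * (d - √11 * m) - s

theorem result (m s : ℕ) (hm : 20 ≤ m) (w : Fin 11 → ℕ) (hw : ∀ i, w i = m ∨ w i = m + 1)
    (hi : ∃ i, w i = m) (hs : ∑ i, w i = 11 * m + s) :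
    ∃ Q : MvPolynomial (Fin 11 × Fin 3) ℂ, Q ≠ 0 ∧
      ∀ p : Fin 11 → Fin 3 → ℂ,
        MvPolynomial.eval (fun ij : Fin 11 × Fin 3 => p ij.1 ij.2) Q ≠ 0 →
        ∀ d : ℕ, ¬ (3 ∣ d ∧ √11 * (2 * (d : ℝ) + 3) < 11 + 2 * (11 * m + s) ∧ 0 ≤ defect m s d ∧
            ((3 * √11 - 9) / 2 ≤ defect m s d ∨ 10 ≤ (10 + 3 * √11) * defect m s d + s)) →
          ∀ F : Fin ((d + 2).choose 2 - ∑ i, (w i + 1).choose 2 + 1) →
            MvPolynomial (Fin 3) ℂ,
          (∀ k, F k ∈ MvPolynomial.homogeneousSubmodule (Fin 3) ℂ d ∧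
            ∀ i, ∀ n : Fin 3 →₀ ℕ, ∑ j, n j < w i →
              MvPolynomial.coeff n
                (MvPolynomial.aeval (R := ℂ)
                  (fun j : Fin 3 => (X j + C (p i j) : MvPolynomial (Fin 3) ℂ)) (F k)) = 0) →
          ¬ LinearIndependent ℂ F := by
  obtain ⟨F, hF, hF'⟩ := N388.EFW.expDim_near11 N388.EF.t_TEST2 hm w hw hi
  exact H932R3.not_special_of (L := ℂ) ⟨F, hF, fun P hP d hd => hF' P hP d s _ hs rfl hd⟩

end Pool.Agent.Results.MP_cfebfb_ag.ElevenPointsNearUniform
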